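import Pool.Agent.H62.Hertz.Count

/-!
# Wilf classes of Hertzsprung patterns and palindromic beginnings of binary palindromes

For every `k ≥ 3` the number of Wilf classes of Hertzsprung patterns of length `k` equals the
number of sets of lengths of palindromic beginnings of binary palindromes of length `k + 1`.
-/

open Equiv

namespace Pool.Agent.Results.MP_7acacd_co.WilfPalindromes

open Pool.Agent.H62.Hertz

variable {k : ℕ}

lemma wilfClasses_eq (hk : 1 ≤ k) :
    wilfClasses k = (Set.range (Ov : Perm (Fin k) → Set ℕ)).ncard := by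
  have h : wilf k = Setoid.ker (Ov : Perm (Fin k) → Set ℕ) := by
    ext σ τ
    rw [Setoid.ker_def]
    exact wilf_iff hk σ τ
  rw [wilfClasses, h, ← Nat.card_coe_set_eq]
  exact Nat.card_congr (Setoid.quotientKerEquivRange _)

/-- from overlaps to lengths of palindromic beginnings -/
def G (k : ℕ) (s : Set ℕ) : Set ℕ := {i | 1 ≤ i ∧ i ≤ k + 1 ∧ (i = 1 ∨ i = k + 1 ∨ k + 1 - i ∈ s)}

lemma G_inj {s t : Set ℕ} (hs : ∀ p ∈ s, 1 ≤ p ∧ p < k) (ht : ∀ p ∈ t, 1 ≤ p ∧ p < k)
    (h : G k s = G k t) : s = t := by
  have key : ∀ {s t : Set ℕ}, (∀ p ∈ s, 1 ≤ p ∧ p < k) → G k s = G k t → s ⊆ t := by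
    intro s t hs h p hp
    have h1 := hs p hp
    have h2 : k + 1 - p ∈ G k s := ⟨by omega, by omega, Or.inr (Or.inr (by
      rw [show k + 1 - (k + 1 - p) = p by omega]; exact hp))⟩
    rw [h] at h2
    obtain ⟨_, _, h3 | h3 | h3⟩ := h2
    · omega
    · omega
    · rwa [show k + 1 - (k + 1 - p) = p by omega] at h3
  exact Set.Subset.antisymm (key hs h) (key ht h.symm)

lemma take_reverse_iff (w : List Bool) {i : ℕ} (hi : i ≤ w.length) :
    (w.take i).reverse = w.take i ↔ ∀ j, j < i → w.getD j false = w.getD (i - 1 - j) false := by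
  constructor
  · intro h j hj
    have h1 : (w.take i)[j]? = ((w.take i).reverse)[j]? := by rw [h]
    rw [List.getElem?_reverse (by simp; omega)] at h1
    rw [List.length_take, min_eq_left hi, List.getElem?_take_of_lt hj,
      List.getElem?_take_of_lt (by omega)] at h1
    rw [List.getD_eq_getElem?_getD, List.getD_eq_getElem?_getD, h1]
  · intro h
    refine List.ext_getElem (by simp) ?_
    intro j h1 h2
    have hj : j < i := by simp at h2; omega
    have h3 := h j hj
    rw [List.getD_eq_getElem _ _ (by omega), List.getD_eq_getElem _ _ (by omega)] at h3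
    rw [List.getElem_reverse, List.getElem_take, List.getElem_take, h3]
    congr 1
    simp; omega

lemma palLengths_eq (w : List Bool) (hk : 1 ≤ k) (hl : w.length = k + 1) (hw : w.reverse = w) :
    palLengths w = G k {p | 1 ≤ p ∧ p < k ∧ Per (k + 1) (fun j => w.getD j false) p} := by
  have hpal : ∀ j, j < k + 1 → w.getD j false = w.getD (k - j) false := by
    have := (take_reverse_iff w (i := k + 1) (by omega)).1 (by
      rw [List.take_of_length_le (by omega)]; exact hw)
    simpa using this
  ext i
  simp only [palLengths, G, Set.mem_ofPred_eq, hl]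
  refine and_congr_right fun h1 => and_congr_right fun h2 => ?_
  rw [take_reverse_iff w (by omega)]
  have key : (∀ j, j < i → w.getD j false = w.getD (i - 1 - j) false) ↔
      Per (k + 1) (fun j => w.getD j false) (k + 1 - i) := by
    constructor
    · intro h j hj
      show w.getD j false = w.getD (j + (k + 1 - i)) false
      rw [h j (by omega), hpal (i - 1 - j) (by omega)]
      congr 1; omega
    · intro h j hj
      have h3 : w.getD (i - 1 - j) false = w.getD (i - 1 - j + (k + 1 - i)) false :=
        h (i - 1 - j) (by omega)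
      rw [h3, hpal j (by omega)]
      congr 1; omega
  rw [key]
  constructor
  · intro h
    by_cases e1 : i = 1
    · exact Or.inl e1
    · by_cases e2 : i = k + 1
      · exact Or.inr (Or.inl e2)
      · exact Or.inr (Or.inr ⟨by omega, by omega, h⟩)
  · rintro (rfl | rfl | ⟨_, _, h⟩)
    · intro j hj
      have : j = 0 := by omega
      subst this
      show w.getD 0 false = w.getD (0 + (k + 1 - 1)) false
      rw [hpal 0 (by omega)]
      congr 1; omega
    · intro j _
      simp
    · exact h

/-- The sets of overlaps are the sets of periods of binary palindromes. -/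
lemma range_ov (hk : 3 ≤ k) (s : Set ℕ) :
    (∃ σ : Perm (Fin k), Ov σ = s) ↔ ∃ w : List Bool, w.length = k + 1 ∧ w.reverse = w ∧
      {p | 1 ≤ p ∧ p < k ∧ Per (k + 1) (fun j => w.getD j false) p} = s := by
  constructor
  · rintro ⟨σ, rfl⟩
    obtain ⟨σ', _, hσ'⟩ := N_pos_rep σ
    obtain ⟨w, hw0, hpal, hw⟩ := exists_palindrome (k + 1) (by omega) (cutWord σ') (by
      rw [(cutWord_eq_none (by omega)).2 (cut_zero σ'), Nat.add_sub_cancel,
        (cutWord_eq_none le_rfl).2 (cut_k σ')])
    have hget : ∀ j, j < k + 1 → ((List.range (k + 1)).map w).getD j false = w j := by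
      intro j hj
      rw [List.getD_eq_getElem _ _ (by simpa using hj)]
      simp
    refine ⟨(List.range (k + 1)).map w, by simp, ?_, ?_⟩
    · have h1 := (take_reverse_iff ((List.range (k + 1)).map w) (i := k + 1) (by simp)).2 (by
        intro j hj
        rw [hget j hj, hget _ (by omega)]
        exact hpal j hj)
      rwa [List.take_of_length_le (by simp)] at h1
    · ext p
      rw [hσ' p]
      simp only [Set.mem_ofPred_eq]
      refine and_congr_right fun h1 => and_congr_right fun h2 => ?_
      rw [← per_cutWord h1 h2, ← hw p h1 (by omega)]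
      constructor
      · intro h j hj
        have := h j hj
        simp only at this
        rwa [hget j (by omega), hget _ hj] at this
      · intro h j hj
        show ((List.range (k + 1)).map w).getD j false =
          ((List.range (k + 1)).map w).getD (j + p) false
        rw [hget j (by omega), hget _ hj]
        exact h j hj
  · rintro ⟨w, hl, hw, rfl⟩
    have hpal := (take_reverse_iff w (i := k + 1) (by omega)).1 (by
      rw [List.take_of_length_le (by omega)]; exact hw)
    have hends : w.getD 0 false = w.getD k false := by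
      have := hpal 0 (by omega)
      simpa using this
    -- normalise the first letter
    set u : ℕ → Bool := fun j => (w.getD j false) == (w.getD 0 false) with hu
    have hu0 : u 0 = true := by simp [hu]
    have huk : u k = true := by simp only [hu]; rw [← hends]; simp
    have hper : ∀ p, Per (k + 1) u p ↔ Per (k + 1) (fun j => w.getD j false) p := by
      intro p
      refine forall_congr' fun j => forall_congr' fun _ => ?_
      simp only [hu]
      cases w.getD j false <;> cases w.getD (j + p) false <;> cases w.getD 0 false <;> simp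
    obtain ⟨σ, hσ⟩ := exists_perm (k := k) u hu0 huk
    by_cases hne : ∃ p, 1 ≤ p ∧ p < k ∧ OPlus σ p
    · obtain ⟨q, hq1, hqk, hq⟩ := hne
      refine ⟨σ, ?_⟩
      ext p
      simp only [Ov, Set.mem_ofPred_eq]
      refine and_congr_right fun h1 => and_congr_right fun h2 => ?_
      rw [← hper, ← hσ p h1 h2]
      exact ⟨fun h => h.resolve_right fun h' => not_both hq1 hqk hq h1 h2 h', Or.inl⟩
    · obtain ⟨τ, hτ⟩ := exists_ov_empty hk
      refine ⟨τ, ?_⟩
      rw [hτ]
      symm
      rw [Set.eq_empty_iff_forall_notMem]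
      rintro p ⟨h1, h2, h3⟩
      rw [← hper, ← hσ p h1 h2] at h3
      exact hne ⟨p, h1, h2, h3⟩

/-- For every `k ≥ 3` the number of Wilf classes of Hertzsprung patterns of length `k` equals the
number of sets of lengths of palindromic beginnings of binary palindromes of length `k + 1`. -/
theorem result (k : ℕ) (hk : 3 ≤ k) : wilfClasses k = palCount (k + 1) := by
  rw [wilfClasses_eq (by omega), palCount]
  have h : {s : Set ℕ | ∃ w : List Bool, w.length = k + 1 ∧ w.reverse = w ∧ palLengths w = s} =
      G k '' Set.range (Ov : Perm (Fin k) → Set ℕ) := by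
    ext s
    simp only [Set.mem_ofPred_eq, Set.mem_image, Set.mem_range]
    constructor
    · rintro ⟨w, hl, hw, rfl⟩
      obtain ⟨σ, hσ⟩ := (range_ov hk _).2 ⟨w, hl, hw, rfl⟩
      exact ⟨Ov σ, ⟨σ, rfl⟩, by rw [hσ, palLengths_eq w (by omega) hl hw]⟩
    · rintro ⟨_, ⟨σ, rfl⟩, rfl⟩
      obtain ⟨w, hl, hw, h⟩ := (range_ov hk (Ov σ)).1 ⟨σ, rfl⟩
      exact ⟨w, hl, hw, by rw [palLengths_eq w (by omega) hl hw, h]⟩
  rw [h, Set.InjOn.ncard_image]
  rintro _ ⟨σ, rfl⟩ _ ⟨τ, rfl⟩ hst
  exact G_inj (fun p hp => ⟨hp.1, hp.2.1⟩) (fun p hp => ⟨hp.1, hp.2.1⟩) hst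

end Pool.Agent.Results.MP_7acacd_co.WilfPalindromes
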